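import Pool.Agent.H225R2.STC.Main
import Pool.Agent.NPC.Dec

/-!
# Spanning tree congestion on cographs is solvable in polynomial time

The definitions used in the statement:
* `Pool.Agent.H225R2.STC.IsCograph G`: `G` has no induced path on four vertices;
* `Pool.Agent.H225R2.STC.cng G T e`: the number of edges of `G` whose two ends lie in different
  components of `T - e`;
* `Pool.Agent.H225R2.STC.ec G T`: the maximum of `cng G T e` over the edges `e` of `T`;
* `Pool.Agent.H225R2.STC.matOf G`: the adjacency matrix of a graph `G` on `Fin n`, a list of rows,
  and `Pool.Agent.NPC.bits` its coding by a bit string (of length linear in the matrix size);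
* `Pool.Agent.NPC.PolyTime f`: some Turing machine (Mathlib's `TM2ComputableInPolyTime`) computes
  `f` on bit strings in polynomial time.
-/

namespace Pool.Agent.Results.MP_fe081e_lc.CographPolyTime

open Pool.Agent.NPC Pool.Agent.H225R2.STC

/-- **STC is solvable in polynomial time on cographs**: some polynomial-time computable function
maps (the code of the adjacency matrix of) every connected cograph `G` to (the code of the
adjacency matrix of) a spanning tree `T` of `G` of minimum congestion. -/
theorem result : ∃ f : List Bool → List Bool, PolyTime f ∧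
    ∀ (n : ℕ) (G : SimpleGraph (Fin n)), G.Connected → IsCograph G →
      ∃ T : SimpleGraph (Fin n), T ≤ G ∧ T.IsTree ∧ f (bits (matOf G)) = bits (matOf T) ∧
        ∀ T' : SimpleGraph (Fin n), T' ≤ G → T'.IsTree → ec G T ≤ ec G T' := by
  have h1 : NPC.Poly (fun x : List Bool => (unbits (List (List Bool)) x).map alg) :=
    NPC.Poly.optMap poly_unbits (f := fun _ M => alg M)
      (NPC.Poly.comp poly_alg (NPC.Poly.snd NPC.Poly.id))
  refine ⟨_, polyTime_opt h1, ?_⟩
  intro n G hG hc
  obtain ⟨T, hT, hT', halg, hmin⟩ := alg_optimal G hG hc
  refine ⟨T, hT, hT', ?_, hmin⟩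
  simp only [unbits_bits, Option.map_some, halg]

end Pool.Agent.Results.MP_fe081e_lc.CographPolyTime
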